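import Mathlib

/-! Reduction of the smooth-number form of the lower bound for linear forms in logarithms
to the form with multiplicatively independent rational numbers. -/

open Real
namespace US98
namespace Red

/-- The core bound for an arbitrary finite index type. -/
theorem gen (core : ∀ k : ℕ, ∃ C : ℕ, ∀ (u v : Fin (k + 1) → ℕ) (b : Fin (k + 1) → ℤ) (H B : ℝ),
      (∀ i, 0 < u i ∧ 0 < v i ∧ (u i : ℝ) ≤ exp H ∧ (v i : ℝ) ≤ exp H ∧ |(b i : ℝ)| ≤ B) →
      1 ≤ H → 3 ≤ B →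
      b 0 ≠ 0 → (∀ c : Fin (k + 1) → ℤ, ∏ i, ((u i : ℚ) / v i) ^ c i = 1 → c = 0) →
      exp (-(C * H ^ C * log B)) ≤ |∑ i, (b i : ℝ) * log ((u i : ℝ) / v i)|)
    (ι : Type) [Fintype ι] : ∃ C : ℕ, ∀ (u v : ι → ℕ) (b : ι → ℤ) (H B : ℝ),
      (∀ i, 0 < u i ∧ 0 < v i ∧ (u i : ℝ) ≤ exp H ∧ (v i : ℝ) ≤ exp H ∧ |(b i : ℝ)| ≤ B) →
      1 ≤ H → 3 ≤ B →
      (∃ i, b i ≠ 0) → (∀ c : ι → ℤ, ∏ i, ((u i : ℚ) / v i) ^ c i = 1 → c = 0) →
      exp (-(C * H ^ C * log B)) ≤ |∑ i, (b i : ℝ) * log ((u i : ℝ) / v i)| := by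
  classical
  obtain ⟨C, hC⟩ := core (Fintype.card ι - 1)
  refine ⟨C, fun u v b H B h1 h2 h3 ⟨i0, hi0⟩ h5 => ?_⟩
  have hc : Fintype.card ι = Fintype.card ι - 1 + 1 := by
    have : 0 < Fintype.card ι := Fintype.card_pos_iff.2 ⟨i0⟩
    omega
  obtain ⟨e, he⟩ : ∃ e : Fin (Fintype.card ι - 1 + 1) ≃ ι, e 0 = i0 :=
    ⟨(Equiv.swap 0 (Fintype.equivFinOfCardEq hc i0)).trans (Fintype.equivFinOfCardEq hc).symm,
      by simp⟩
  have key := hC (fun i => u (e i)) (fun i => v (e i)) (fun i => b (e i)) H B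
    (fun i => h1 (e i)) h2 h3 (by rw [he]; exact hi0) ?_
  · rwa [Equiv.sum_comp e (fun i => (b i : ℝ) * log ((u i : ℝ) / v i))] at key
  · intro c hc1
    have h6 := h5 (fun j => c (e.symm j)) (by
      rw [← hc1, ← Equiv.prod_comp e]; simp)
    funext i
    have h7 := congrFun h6 (e i)
    simpa using h7

theorem vprod {ι : Type} (q : ℕ) [Fact q.Prime] (s : Finset ι) (f : ι → ℚ) (hf : ∀ i, f i ≠ 0) :
    padicValRat q (∏ i ∈ s, f i) = ∑ i ∈ s, padicValRat q (f i) := by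
  classical
  induction s using Finset.induction_on with
  | empty => simp
  | insert a s ha ih =>
    rw [Finset.prod_insert ha, Finset.sum_insert ha,
      padicValRat.mul (hf a) (Finset.prod_ne_zero_iff.2 fun i _ => hf i), ih]

theorem pne (S : Finset ℕ) (hS : ∀ p ∈ S, p.Prime) (c : S → ℤ) (p : S) :
    (((p : ℕ) : ℚ) / ((1 : ℕ) : ℚ)) ^ c p ≠ 0 := by
  have := (hS p p.2).ne_zero
  exact zpow_ne_zero _ (by simpa using this)

theorem vS (S : Finset ℕ) (hS : ∀ p ∈ S, p.Prime) (c : S → ℤ) (q : ℕ) [hq : Fact q.Prime] :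
    padicValRat q (∏ p : S, (((p : ℕ) : ℚ) / ((1 : ℕ) : ℚ)) ^ c p)
      = ∑ p : S, if (p : ℕ) = q then c p else 0 := by
  rw [vprod q _ _ (pne S hS c)]
  refine Finset.sum_congr rfl fun p _ => ?_
  rw [padicValRat.zpow, Nat.cast_one, div_one, padicValRat.of_nat]
  by_cases h : (p : ℕ) = q
  · rw [if_pos h, h, padicValNat_self]; simp
  · have : Fact (p : ℕ).Prime := ⟨hS p p.2⟩
    rw [if_neg h, padicValNat_primes (Ne.symm h)]; simp

theorem ind1 (S : Finset ℕ) (hS : ∀ p ∈ S, p.Prime) (c : S → ℤ)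
    (h : ∏ p : S, (((p : ℕ) : ℚ) / ((1 : ℕ) : ℚ)) ^ c p = 1) : c = 0 := by
  funext q
  have : Fact (q : ℕ).Prime := ⟨hS q q.2⟩
  have h1 := vS S hS c q
  rw [h, padicValRat.one, Finset.sum_eq_single q] at h1
  · simpa using h1.symm
  · intro p _ hp
    rw [if_neg fun h2 => hp (Subtype.ext h2)]
  · simp

theorem ind2 (S : Finset ℕ) (hS : ∀ p ∈ S, p.Prime) (r : ℚ) (hr : r ≠ 0) (q : ℕ) (hq : q.Prime)
    (hqS : q ∉ S) (hv : padicValRat q r ≠ 0) (c0 : ℤ) (c : S → ℤ)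
    (h : r ^ c0 * ∏ p : S, (((p : ℕ) : ℚ) / ((1 : ℕ) : ℚ)) ^ c p = 1) : c0 = 0 ∧ c = 0 := by
  have : Fact q.Prime := ⟨hq⟩
  have h1 := congrArg (padicValRat q) h
  rw [padicValRat.mul (zpow_ne_zero _ hr) (Finset.prod_ne_zero_iff.2 fun p _ => pne S hS c p),
    vS S hS c q, padicValRat.zpow, padicValRat.one,
    Finset.sum_eq_zero (fun (p : S) _ => if_neg fun h2 : (p : ℕ) = q => hqS (h2 ▸ p.2)), add_zero] at h1
  have h0 : c0 = 0 := (mul_eq_zero.1 h1).resolve_right hv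
  rw [h0, zpow_zero, one_mul] at h
  exact ⟨h0, ind1 S hS c h⟩

theorem logT (n : ℕ) (T : Finset ℕ) (hT : n.primeFactors ⊆ T) :
    log (n : ℝ) = ∑ p ∈ T, (n.factorization p : ℝ) * log (p : ℝ) := by
  rw [log_nat_eq_sum_factorization, Finsupp.sum, Nat.support_factorization]
  refine Finset.sum_subset hT fun p _ hp => ?_
  rw [← Nat.support_factorization, Finsupp.notMem_support_iff] at hp
  rw [hp]; simp

theorem logdiff (x y : ℕ) (S : Finset ℕ)
    (h : ∀ q, q ∉ S → x.factorization q = y.factorization q) :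
    log (x : ℝ) - log (y : ℝ) = ∑ p : S,
      ((((x.factorization p : ℕ) : ℤ) - (y.factorization p : ℕ) : ℤ) : ℝ)
        * log (((p : ℕ) : ℝ) / ((1 : ℕ) : ℝ)) := by
  rw [logT x (S ∪ (x.primeFactors ∪ y.primeFactors)) (fun p hp => by simp [hp]),
    logT y (S ∪ (x.primeFactors ∪ y.primeFactors)) (fun p hp => by simp [hp]),
    ← Finset.sum_sub_distrib,
    Finset.sum_coe_sort S (fun p : ℕ =>
      ((((x.factorization p : ℕ) : ℤ) - (y.factorization p : ℕ) : ℤ) : ℝ)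
        * log ((p : ℝ) / ((1 : ℕ) : ℝ))),
    ← Finset.sum_subset Finset.subset_union_left (fun p _ hp => by rw [h p hp, sub_self])]
  refine Finset.sum_congr rfl fun p _ => ?_
  push_cast
  rw [div_one]; ring

theorem fac_le (n : ℕ) (hn : n ≠ 0) (t : ℝ) (ht : (n : ℝ) ≤ exp t) (p : ℕ) (hp : p.Prime) :
    (n.factorization p : ℝ) ≤ 2 * t := by
  have h1 : 2 ^ n.factorization p ≤ n :=
    (Nat.pow_le_pow_left hp.two_le _).trans (Nat.ordProj_le p hn)
  have h2 : (2 : ℝ) ^ n.factorization p ≤ exp t := le_trans (by exact_mod_cast h1) ht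
  have h3 := log_le_log (by positivity) h2
  rw [log_pow, log_exp] at h3
  have h4 := log_two_gt_d9
  have h5 : (0 : ℝ) ≤ n.factorization p := Nat.cast_nonneg _
  nlinarith

theorem diff_le (x y : ℕ) (hx : x ≠ 0) (hy : y ≠ 0) (t : ℝ) (h1 : (x : ℝ) ≤ exp t)
    (h2 : (y : ℝ) ≤ exp t) (p : ℕ) (hp : p.Prime) :
    |((((x.factorization p : ℕ) : ℤ) - (y.factorization p : ℕ) : ℤ) : ℝ)| ≤ 2 * t := by
  have a1 := fac_le x hx t h1 p hp
  have a2 := fac_le y hy t h2 p hp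
  have a3 : (0 : ℝ) ≤ x.factorization p := Nat.cast_nonneg _
  have a4 : (0 : ℝ) ≤ y.factorization p := Nat.cast_nonneg _
  push_cast
  rw [abs_le]
  constructor <;> linarith

theorem exp_sub_one (x s : ℝ) (hs : 0 ≤ s) (h : exp (-s) ≤ |x|) : exp (-(s + 1)) ≤ |exp x - 1| := by
  have e1 : exp (-s) ≤ 1 := exp_le_one_iff.2 (by linarith)
  have e0 : 0 < exp (-s) := exp_pos _
  have e2 : exp (-(s + 1)) ≤ exp (-s) / 2 := by
    rw [neg_add, exp_add, exp_neg 1, ← div_eq_mul_inv]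
    have := add_one_le_exp (1 : ℝ)
    exact div_le_div_of_nonneg_left e0.le (by norm_num) (by linarith)
  refine e2.trans ?_
  rcases le_total 0 x with hx | hx
  · rw [abs_of_nonneg hx] at h
    have := add_one_le_exp x
    exact le_trans (by linarith) (le_abs_self _)
  · rw [abs_of_nonpos hx] at h
    refine le_trans ?_ (neg_le_abs _)
    have a1 : exp x ≤ exp (-exp (-s)) := exp_le_exp.2 (by linarith)
    have a2 := add_one_le_exp (exp (-s))
    have a3 : exp (-exp (-s)) * exp (exp (-s)) = 1 := by rw [← exp_add]; simp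
    have a4 : 0 < exp (-exp (-s)) := exp_pos _
    have a5 : exp (-exp (-s)) * (exp (-s) + 1) ≤ 1 :=
      le_trans (mul_le_mul_of_nonneg_left a2 a4.le) a3.le
    by_contra hh
    have a6 : 1 - exp (-s) / 2 < exp (-exp (-s)) := by linarith [not_le.1 hh]
    nlinarith [mul_lt_mul_of_pos_right a6 (show 0 < exp (-s) + 1 by linarith)]

theorem num (M K C0 : ℕ) (hK : C0 ≤ K) (Bd h : ℝ) (hB : 3 ≤ Bd) (hh : 1 ≤ h) :
    0 ≤ (C0 : ℝ) * ((M + 1) * h) ^ C0 * log (2 * (Bd + h)) ∧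
    (C0 : ℝ) * ((M + 1) * h) ^ C0 * log (2 * (Bd + h)) + 1 ≤
      ((4 * K * (M + 1) ^ K + K + 1 : ℕ) : ℝ) * h ^ (4 * K * (M + 1) ^ K + K + 1) * log Bd := by
  have hM : (1 : ℝ) ≤ (M : ℝ) + 1 := by linarith [(Nat.cast_nonneg M : (0 : ℝ) ≤ M)]
  have hL : 1 ≤ log Bd := by
    rw [le_log_iff_exp_le (by linarith)]
    linarith [exp_one_lt_d9]
  have l0 : 0 ≤ log (2 * (Bd + h)) := log_nonneg (by linarith)
  have l1 : log (2 * (Bd + h)) ≤ 4 * h * log Bd := by
    have a1 : log (2 * (Bd + h)) ≤ log (Bd * (3 * h)) :=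
      log_le_log (by linarith) (by nlinarith)
    rw [log_mul (x := Bd) (by linarith) (by linarith)] at a1
    have a2 : log (3 * h) ≤ 3 * h - 1 := log_le_sub_one_of_pos (by linarith)
    nlinarith
  have p0 : (0 : ℝ) ≤ ((M + 1) * h) ^ C0 := by positivity
  refine ⟨by positivity, ?_⟩
  have p1 : (((M : ℝ) + 1) * h) ^ C0 ≤ (M + 1) ^ K * h ^ K := by
    rw [← mul_pow]
    exact pow_le_pow_right₀ (by nlinarith) hK
  have p2 : h ^ K * h ≤ h ^ (4 * K * (M + 1) ^ K + K + 1) := by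
    rw [← pow_succ]
    exact pow_le_pow_right₀ hh (by omega)
  have p3 : 1 ≤ h ^ (4 * K * (M + 1) ^ K + K + 1) := one_le_pow₀ hh
  generalize h ^ (4 * K * (M + 1) ^ K + K + 1) = P at p2 p3
  have k0 : (0 : ℝ) ≤ K := Nat.cast_nonneg _
  have k1 : (C0 : ℝ) ≤ K := by exact_mod_cast hK
  have q0 : (0 : ℝ) ≤ ((M : ℝ) + 1) ^ K := by positivity
  have s1 : (C0 : ℝ) * ((M + 1) * h) ^ C0 * log (2 * (Bd + h))
      ≤ (K : ℝ) * ((M + 1) ^ K * h ^ K) * (4 * h * log Bd) :=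
    mul_le_mul (mul_le_mul k1 p1 p0 k0) l1 l0 (by positivity)
  have s2 : (K : ℝ) * ((M + 1) ^ K * h ^ K) * (4 * h * log Bd)
      = 4 * K * (M + 1) ^ K * log Bd * (h ^ K * h) := by ring
  have s3 : 4 * (K : ℝ) * (M + 1) ^ K * log Bd * (h ^ K * h) ≤ 4 * K * (M + 1) ^ K * log Bd * P :=
    mul_le_mul_of_nonneg_left p2 (by positivity)
  have s4 : 1 ≤ P * log Bd := by nlinarith
  have s5 : 0 ≤ (K : ℝ) * (P * log Bd) := by positivity
  push_cast
  nlinarith

end Red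

open Red in
theorem red (core : ∀ k : ℕ, ∃ C : ℕ, ∀ (u v : Fin (k + 1) → ℕ) (b : Fin (k + 1) → ℤ) (H B : ℝ),
      (∀ i, 0 < u i ∧ 0 < v i ∧ (u i : ℝ) ≤ exp H ∧ (v i : ℝ) ≤ exp H ∧ |(b i : ℝ)| ≤ B) → 1 ≤ H → 3 ≤ B →
      b 0 ≠ 0 → (∀ c : Fin (k + 1) → ℤ, ∏ i, ((u i : ℚ) / v i) ^ c i = 1 → c = 0) →
      exp (-(C * H ^ C * log B)) ≤ |∑ i, (b i : ℝ) * log ((u i : ℝ) / v i)|)
    (M : ℕ) : ∃ C : ℕ, ∀ (a b a' b' : ℕ) (Bd h : ℝ), a ∈ Nat.smoothNumbers M → b ∈ Nat.smoothNumbers M →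
      (a : ℝ) ≤ exp Bd → (b : ℝ) ≤ exp Bd → 0 < a' → 0 < b' → (a' : ℝ) ≤ exp h → (b' : ℝ) ≤ exp h →
      3 ≤ Bd → 1 ≤ h → a * a' ≠ b * b' →
      exp (-(C * h ^ C * log Bd)) ≤ |(a * a' : ℝ) / (b * b') - 1| := by
  classical
  obtain ⟨S, hS, hSM, hsm⟩ : ∃ S : Finset ℕ, (∀ p ∈ S, p.Prime) ∧ (∀ p ∈ S, p < M) ∧
      ∀ n ∈ Nat.smoothNumbers M, ∀ q, q ∉ S → n.factorization q = 0 := by
    refine ⟨M.primesBelow, fun p hp => (Nat.mem_primesBelow.1 hp).2,
      fun p hp => (Nat.mem_primesBelow.1 hp).1, fun n hn q hq => ?_⟩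
    rw [← Finsupp.notMem_support_iff, Nat.support_factorization]
    exact fun h => hq (Nat.primeFactors_subset_of_mem_smoothNumbers hn h)
  obtain ⟨C1, h1⟩ := gen core S
  obtain ⟨C2, h2⟩ := gen core (Option S)
  refine ⟨4 * (C1 + C2) * (M + 1) ^ (C1 + C2) + (C1 + C2) + 1,
    fun a b a' b' Bd h ha hb hab hbb ha' hb' hah hbh hB hh hne => ?_⟩
  have a0 : a ≠ 0 := ha.1
  have b0 : b ≠ 0 := hb.1
  have x0 : a * a' ≠ 0 := mul_ne_zero a0 ha'.ne'
  have y0 : b * b' ≠ 0 := mul_ne_zero b0 hb'.ne'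
  have xp : (0 : ℝ) < ((a * a' : ℕ) : ℝ) := by exact_mod_cast Nat.pos_of_ne_zero x0
  have yp : (0 : ℝ) < ((b * b' : ℕ) : ℝ) := by exact_mod_cast Nat.pos_of_ne_zero y0
  have hM : (0 : ℝ) ≤ M := Nat.cast_nonneg M
  have hH : 1 ≤ ((M : ℝ) + 1) * h := by nlinarith
  have hB2 : 3 ≤ 2 * (Bd + h) := by linarith
  have hp : ∀ p : S, 0 < (p : ℕ) ∧ ((p : ℕ) : ℝ) ≤ exp (((M : ℝ) + 1) * h) := fun p => by
    refine ⟨(hS p p.2).pos, ?_⟩
    have c1 : ((p : ℕ) : ℝ) ≤ M := by exact_mod_cast (hSM p p.2).le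
    have c2 := add_one_le_exp (((M : ℝ) + 1) * h)
    nlinarith
  have hone : ((1 : ℕ) : ℝ) ≤ exp (((M : ℝ) + 1) * h) := by
    rw [Nat.cast_one]; exact one_le_exp (by linarith)
  have main : ∃ C0 : ℕ, C0 ≤ C1 + C2 ∧
      exp (-(C0 * (((M : ℝ) + 1) * h) ^ C0 * log (2 * (Bd + h))))
        ≤ |log ((a * a' : ℕ) : ℝ) - log ((b * b' : ℕ) : ℝ)| := by
    by_cases hc : ∀ q, q ∉ S → (a * a').factorization q = (b * b').factorization q
    · refine ⟨C1, Nat.le_add_right _ _, ?_⟩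
      have hx : ((a * a' : ℕ) : ℝ) ≤ exp (Bd + h) := by
        rw [exp_add, Nat.cast_mul]
        exact mul_le_mul hab hah (Nat.cast_nonneg _) (exp_pos _).le
      have hy : ((b * b' : ℕ) : ℝ) ≤ exp (Bd + h) := by
        rw [exp_add, Nat.cast_mul]
        exact mul_le_mul hbb hbh (Nat.cast_nonneg _) (exp_pos _).le
      have hl := logdiff _ _ S hc
      rw [hl]
      refine h1 (fun p => (p : ℕ)) (fun _ => 1)
        (fun p => (((a * a').factorization p : ℕ) : ℤ) - ((b * b').factorization p : ℕ)) _ _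
        (fun p => ⟨(hp p).1, one_pos, (hp p).2, hone,
          diff_le _ _ x0 y0 _ hx hy p (hS p p.2)⟩) hH hB2 ?_ (ind1 S hS)
      by_contra hz
      have hz' : ∀ p : S,
          (((a * a').factorization p : ℕ) : ℤ) - ((b * b').factorization p : ℕ) = 0 :=
        fun p => by_contra fun h => hz ⟨p, h⟩
      rw [Finset.sum_eq_zero (fun p _ => by rw [hz' p]; simp), sub_eq_zero] at hl
      exact hne (by exact_mod_cast log_injOn_pos xp yp hl)
    · refine ⟨C2, Nat.le_add_left _ _, ?_⟩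
      obtain ⟨q, hc⟩ := not_forall.1 hc
      obtain ⟨hq, hqv⟩ := Classical.not_imp.1 hc
      have qp : q.Prime := by
        by_contra hn
        exact hqv (by rw [Nat.factorization_eq_zero_of_not_prime _ hn,
          Nat.factorization_eq_zero_of_not_prime _ hn])
      rw [Nat.factorization_mul a0 ha'.ne', Nat.factorization_mul b0 hb'.ne', Finsupp.add_apply,
        Finsupp.add_apply, hsm a ha q hq, hsm b hb q hq, zero_add, zero_add,
        Nat.factorization_def _ qp, Nat.factorization_def _ qp] at hqv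
      have ar : (a' : ℚ) ≠ 0 := by exact_mod_cast ha'.ne'
      have br : (b' : ℚ) ≠ 0 := by exact_mod_cast hb'.ne'
      have hv : padicValRat q ((a' : ℚ) / b') ≠ 0 := by
        have : Fact q.Prime := ⟨qp⟩
        rw [padicValRat.div ar br, padicValRat.of_nat, padicValRat.of_nat, sub_ne_zero]
        exact_mod_cast hqv
      have hl := logdiff a b S fun r hr => by rw [hsm a ha r hr, hsm b hb r hr]
      have hhH : exp h ≤ exp (((M : ℝ) + 1) * h) := exp_le_exp.2 (by nlinarith)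
      have hBh : exp Bd ≤ exp (Bd + h) := exp_le_exp.2 (by linarith)
      have key := h2 (fun o => o.elim a' fun p => (p : ℕ)) (fun o => o.elim b' fun _ => 1)
        (fun o => o.elim 1 fun p => ((a.factorization p : ℕ) : ℤ) - (b.factorization p : ℕ))
        (((M : ℝ) + 1) * h) (2 * (Bd + h)) ?_ hH hB2 ⟨none, one_ne_zero⟩ ?_
      · rw [Fintype.sum_option] at key
        simp only [Option.elim_none, Option.elim_some] at key
        rw [← hl] at key
        have ar' : (a' : ℝ) ≠ 0 := by exact_mod_cast ha'.ne'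
        have br' : (b' : ℝ) ≠ 0 := by exact_mod_cast hb'.ne'
        have a0' : (a : ℝ) ≠ 0 := by exact_mod_cast a0
        have b0' : (b : ℝ) ≠ 0 := by exact_mod_cast b0
        have e : log ((a * a' : ℕ) : ℝ) - log ((b * b' : ℕ) : ℝ)
            = ((1 : ℤ) : ℝ) * log ((a' : ℝ) / b') + (log a - log b) := by
          rw [Nat.cast_mul, Nat.cast_mul, log_mul a0' ar', log_mul b0' br', log_div ar' br']
          push_cast
          ring
        rw [e]
        exact key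
      · rintro (_ | p)
        · refine ⟨ha', hb', hah.trans hhH, hbh.trans hhH, ?_⟩
          simp only [Option.elim_none, Int.cast_one, abs_one]
          linarith
        · exact ⟨(hp p).1, one_pos, (hp p).2, hone,
            diff_le _ _ a0 b0 _ (hab.trans hBh) (hbb.trans hBh) p (hS p p.2)⟩
      · intro c hc1
        rw [Fintype.prod_option] at hc1
        obtain ⟨z1, z2⟩ := ind2 S hS _ (div_ne_zero ar br) q qp hq hv (c none)
          (fun p => c (some p)) hc1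
        funext o
        rcases o with _ | p
        · exact z1
        · exact congrFun z2 p
  obtain ⟨C0, hK, hm⟩ := main
  obtain ⟨n0, n1⟩ := num M (C1 + C2) C0 hK Bd h hB hh
  have fin := exp_sub_one _ _ n0 hm
  rw [exp_sub, exp_log xp, exp_log yp, Nat.cast_mul, Nat.cast_mul] at fin
  exact le_trans (exp_le_exp.2 (neg_le_neg n1)) fin

end US98
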